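import Pool.Agent.H648.Q.Defs
import Pool.Graph.R_seed8.H304R2.Legendre

set_option autoImplicit false

namespace Pool.Agent.H17.Q648

open Pool.Agent.H648.Q
open Pool.Agent.H304R2 (box_pigeon)

/-- The Legendre equation for a given prime `p ≡ 1 mod 4|D|` (after `Pool.Agent.H304R2`). -/
theorem norm_of_prime (D : ℤ) (hD : ¬ IsSquare D) (p : ℕ) (hp : p.Prime)
    (hmod : p ≡ 1 [MOD 4 * D.natAbs]) (hgt : 4 * D.natAbs < p) (ν : ℤ)
    (hν : (p : ℤ) ∣ ν ^ 2 - D) : ∃ x y w : ℤ, w ≠ 0 ∧ x ^ 2 - D * y ^ 2 = p * w ^ 2 := by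
  have hD0 : D ≠ 0 := by rintro rfl; exact hD ⟨0, by simp⟩
  have hpos := Int.natAbs_pos.mpr hD0
  have hp0 : (0 : ℤ) < p := by exact_mod_cast hp.pos
  obtain ⟨x, y, z, hne, hx, hy, hz, d1, d2, d3⟩ := box_pigeon D.natAbs hpos p hp.pos ν
  set F := x ^ 2 - D * y ^ 2 - p * z ^ 2 with hF
  have hDa : (D.natAbs : ℤ) = |D| := Int.natCast_natAbs D
  rw [hDa] at hx hz d2
  -- divisibility by 4 |D|
  have hm1 : (4 * D) ∣ (p : ℤ) - 1 := by
    have h1 := (Nat.modEq_iff_dvd.mp hmod.symm)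
    push_cast at h1
    have h2 : |4 * D| ∣ (p : ℤ) - 1 := by
      rw [abs_mul]; simpa using h1
    exact (abs_dvd _ _).mp h2
  have hm2 : (2 * D) ∣ x - z := by
    have h2 : |2 * D| ∣ x - z := by
      rw [abs_mul]; simpa using d2
    exact (abs_dvd _ _).mp h2
  obtain ⟨k, hk⟩ := hm2
  obtain ⟨y', hy'⟩ := d1
  obtain ⟨l, hl⟩ := hm1
  have f1 : (4 * D) ∣ F := by
    refine ⟨k * z + D * k ^ 2 - y' ^ 2 - l * z ^ 2, ?_⟩
    have hx' : x = z + 2 * D * k := by linarith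
    have hp' : (p : ℤ) = 1 + 4 * D * l := by linarith
    rw [hF, hx', hy', hp']
    ring
  have f2 : (p : ℤ) ∣ F := by
    obtain ⟨m, hm⟩ := d3
    obtain ⟨n, hn⟩ := hν
    refine ⟨p * m ^ 2 + 2 * m * ν * y + n * y ^ 2 - z ^ 2, ?_⟩
    have hx' : x = ν * y + p * m := by linarith
    have hD' : D = ν ^ 2 - p * n := by linarith
    have : F = (ν * y + p * m) ^ 2 - (ν ^ 2 - p * n) * y ^ 2 - p * z ^ 2 := by
      rw [hF, ← hx', ← hD']
    rw [this]
    ring
  have cop : IsCoprime (4 * D) (p : ℤ) := by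
    refine ⟨-l, 1, ?_⟩
    linarith
  have f3 : (4 * D) * p ∣ F := cop.mul_dvd f1 f2
  obtain ⟨m, hm⟩ := f3
  have hcase : F = 0 ∨ F = -(4 * D * p) := by
    rcases lt_or_gt_of_ne hD0 with hneg | hposD
    · rw [abs_of_neg hneg] at hx hz
      have g1 : F ≤ 6 * (-D) * p := by
        have : (-D) * y ^ 2 ≤ (-D) * (3 * p) := mul_le_mul_of_nonneg_left hy (by linarith)
        have h3 : 0 ≤ p * z ^ 2 := by positivity
        rw [hF]; linarith
      have g2 : -(3 * (-D) * p) ≤ F := by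
        have : p * z ^ 2 ≤ p * (3 * -D) := mul_le_mul_of_nonneg_left hz hp0.le
        have h3 : 0 ≤ (-D) * y ^ 2 := mul_nonneg (by linarith) (sq_nonneg _)
        have h4 := sq_nonneg x
        rw [hF]; linarith
      have hDp : 0 < (-D) * p := mul_pos (by linarith) hp0
      rw [hm] at g1 g2
      have m1 : m ≤ 0 := by
        by_contra hc
        have : (-D) * p * 1 ≤ (-D) * p * m := mul_le_mul_of_nonneg_left (by omega) hDp.le
        nlinarith
      have m2 : -1 ≤ m := by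
        by_contra hc
        have : (-D) * p * m ≤ (-D) * p * (-2) := mul_le_mul_of_nonneg_left (by omega) hDp.le
        nlinarith
      have : m = 0 ∨ m = -1 := by omega
      rcases this with h | h
      · left; rw [hm, h]; ring
      · right; rw [hm, h]; ring
    · rw [abs_of_pos hposD] at hx hz
      have g1 : F ≤ 3 * D * p := by
        have : 0 ≤ D * y ^ 2 := by positivity
        have h3 : 0 ≤ p * z ^ 2 := by positivity
        rw [hF]; linarith
      have g2 : -(6 * D * p) ≤ F := by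
        have : p * z ^ 2 ≤ p * (3 * D) := mul_le_mul_of_nonneg_left hz hp0.le
        have h3 : D * y ^ 2 ≤ D * (3 * p) := mul_le_mul_of_nonneg_left hy hposD.le
        have h4 := sq_nonneg x
        rw [hF]; linarith
      have hDp : 0 < D * p := mul_pos hposD hp0
      rw [hm] at g1 g2
      have m1 : m ≤ 0 := by
        by_contra hc
        have : D * p * 1 ≤ D * p * m := mul_le_mul_of_nonneg_left (by omega) hDp.le
        nlinarith
      have m2 : -1 ≤ m := by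
        by_contra hc
        have : D * p * m ≤ D * p * (-2) := mul_le_mul_of_nonneg_left (by omega) hDp.le
        nlinarith
      have : m = 0 ∨ m = -1 := by omega
      rcases this with h | h
      · left; rw [hm, h]; ring
      · right; rw [hm, h]; ring
  rcases hcase with h0 | h4
  · refine ⟨x, y, z, ?_, by linarith⟩
    rintro rfl
    have h5 : x ^ 2 = D * y ^ 2 := by linarith
    have hy0 : y ≠ 0 := by
      rintro rfl
      have : x = 0 := by
        have : x ^ 2 = 0 := by linarith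
        exact pow_eq_zero_iff (two_ne_zero) |>.mp this
      exact hne (by rw [this])
    apply hD
    have : y ^ 2 ∣ x ^ 2 := ⟨D, by linarith⟩
    obtain ⟨q, hq⟩ := (Int.pow_dvd_pow_iff (two_ne_zero)).mp this
    refine ⟨q, ?_⟩
    have h6 : y ^ 2 * D = y ^ 2 * (q * q) := by rw [hq] at h5; linarith
    exact mul_left_cancel₀ (pow_ne_zero 2 hy0) h6
  · refine ⟨x * z - 2 * D * y, y * z - 2 * x, z ^ 2 - 4 * D, ?_, ?_⟩
    · intro h
      apply hD
      have : (2 : ℤ) ^ 2 ∣ z ^ 2 := ⟨D, by linarith⟩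
      obtain ⟨q, hq⟩ := (Int.pow_dvd_pow_iff (two_ne_zero)).mp this
      refine ⟨q, ?_⟩
      rw [hq] at h
      linarith
    · have h5 : x ^ 2 - D * y ^ 2 = p * (z ^ 2 - 4 * D) := by linarith
      have : (x * z - 2 * D * y) ^ 2 - D * (y * z - 2 * x) ^ 2 =
          (x ^ 2 - D * y ^ 2) * (z ^ 2 - 4 * D) := by ring
      rw [this, h5]
      ring

theorem exists_prime_root' (D : ℤ) (hD : D ≠ 0) (N : ℕ) (hN : 1 ≤ N) :
    ∃ p : ℕ, p.Prime ∧ p ≡ 1 [MOD N] ∧ p ≡ 1 [MOD 4 * D.natAbs] ∧ 4 * D.natAbs < p ∧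
      ∃ ν : ℤ, (p : ℤ) ∣ ν ^ 2 - D := by
  have hpos := Int.natAbs_pos.mpr hD
  have hk : 4 * D.natAbs * N ≠ 0 := by positivity
  obtain ⟨p, hp, hgt', hmod'⟩ := Nat.exists_prime_gt_modEq_one (k := 4 * D.natAbs * N)
    (4 * D.natAbs) hk
  have hgt : 4 * D.natAbs < p := hgt'
  have hmod : p ≡ 1 [MOD 4 * D.natAbs] := Nat.ModEq.of_mul_right N hmod'
  have hmodN : p ≡ 1 [MOD N] := Nat.ModEq.of_mul_left (4 * D.natAbs) hmod'
  refine ⟨p, hp, hmodN, hmod, hgt, ?_⟩
  have : Fact p.Prime := ⟨hp⟩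
  have hodd : Odd p := by
    rcases hp.eq_two_or_odd' with h | h
    · omega
    · exact h
  have h1 : jacobiSym D p = 1 := by
    rw [jacobiSym.mod_right D hodd]
    have : p % (4 * D.natAbs) = 1 := by
      have h2 : p % (4 * D.natAbs) = 1 % (4 * D.natAbs) := hmod
      rw [h2]
      exact Nat.mod_eq_of_lt (by omega)
    rw [this, jacobiSym.one_right]
  rw [← jacobiSym.legendreSym.to_jacobiSym] at h1
  have h0 : ((D : ℤ) : ZMod p) ≠ 0 := by
    intro h
    have := (legendreSym.eq_zero_iff p D).mpr h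
    omega
  obtain ⟨r, hr⟩ := (legendreSym.eq_one_iff p h0).mp h1
  refine ⟨(r.val : ℤ), ?_⟩
  rw [← ZMod.intCast_zmod_eq_zero_iff_dvd]
  push_cast
  rw [ZMod.natCast_zmod_val, hr]
  ring

theorem lg0 : S_LG0 := by
  intro D N hD hN
  have hD0 : D ≠ 0 := by rintro rfl; exact hD ⟨0, by simp⟩
  obtain ⟨p, hp, hN1, hmod, hgt, ν, hν⟩ := exists_prime_root' D hD0 N hN
  obtain ⟨x, y, w, hw, h⟩ := norm_of_prime D hD p hp hmod hgt ν hν
  -- divide by the gcd
  set g : ℤ := ((Int.gcd x (Int.gcd y w) : ℕ) : ℤ) with hg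
  have g1 : g ∣ x := Int.gcd_dvd_left _ _
  have g2 : g ∣ (Int.gcd y w : ℤ) := Int.gcd_dvd_right _ _
  have g3 : g ∣ y := g2.trans (Int.gcd_dvd_left _ _)
  have g4 : g ∣ w := g2.trans (Int.gcd_dvd_right _ _)
  have g0 : g ≠ 0 := by
    intro h0
    rw [h0] at g4
    exact hw (zero_dvd_iff.1 g4)
  obtain ⟨x', hx⟩ := g1
  obtain ⟨y', hy⟩ := g3
  obtain ⟨w', hw'⟩ := g4
  refine ⟨p, x', y', w', hp, hN1, ?_, ?_, ?_⟩
  · intro q hq q1 q2 q3
    obtain ⟨a, ha⟩ := q1
    obtain ⟨b, hb⟩ := q2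
    obtain ⟨c, hc⟩ := q3
    have d1 : g * q ∣ x := ⟨a, by rw [hx, ha]; ring⟩
    have d2 : g * q ∣ y := ⟨b, by rw [hy, hb]; ring⟩
    have d3 : g * q ∣ w := ⟨c, by rw [hw', hc]; ring⟩
    have d4 : g * q ∣ g := Int.dvd_coe_gcd d1 (Int.dvd_coe_gcd d2 d3)
    obtain ⟨k, hk⟩ := d4
    have h5 : g * (q * k) = g * 1 := by rw [mul_one, ← mul_assoc]; exact hk.symm
    have h6 : q * k = 1 := mul_left_cancel₀ g0 h5
    exact hq.not_isUnit (IsUnit.of_mul_eq_one k h6)
  · rintro rfl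
    apply hw
    rw [hw', mul_zero]
  · have h7 : g ^ 2 * (x' ^ 2 - D * y' ^ 2) = g ^ 2 * (p * w' ^ 2) := by
      have h8 := h
      rw [hx, hy, hw'] at h8
      linear_combination h8
    exact mul_left_cancel₀ (pow_ne_zero 2 g0) h7

end Pool.Agent.H17.Q648
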