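import Pool.Agent.H648.Q.Defs

set_option autoImplicit false

namespace Pool.Agent.H17.Q648

open Pool.Agent.H648.Q
open Pool.Agent.H376R2.MR (lam)
open Pool.Agent.W78.GA (Qd nm)

theorem unt_of {b m : ℤ} (hD : b ^ 2 < 4 * m) (h : S_LEG) : S_UNT b m := by
  intro a ha
  have hns : ¬ IsSquare (b ^ 2 - 4 * m) := by
    rintro ⟨r, hr⟩
    nlinarith [mul_self_nonneg r]
  obtain ⟨x, y, r, p, hp, hr, hxa, ⟨y1, hy⟩, he⟩ := h (b ^ 2 - 4 * m) a hns ha
  have hnm : ∀ u : Qd (b * a) (m * a ^ 2), u.re = x - b * y → u.im = 2 * y1 →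
      nm u = r.natAbs ^ 2 * p := by
    intro u h1 h2
    unfold nm
    rw [h1, h2]
    have e : (x - b * y) ^ 2 + b * (a : ℤ) * (x - b * y) * (2 * y1) +
        m * (a : ℤ) ^ 2 * (2 * y1) ^ 2 = p * r ^ 2 := by
      rw [← he, hy]
      ring
    rw [e, Int.natAbs_mul, Int.natAbs_pow, Int.natAbs_natCast, mul_comm]
  set u : Qd (b * a) (m * a ^ 2) := ⟨x - b * y, 2 * y1⟩ with hu
  have hnu := hnm u rfl rfl
  have hr' : r.natAbs ≠ 0 := Int.natAbs_ne_zero.2 hr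
  refine ⟨u, ?_, ?_, ?_⟩
  · intro h0
    rw [h0] at hnu
    rw [Pool.Agent.W78.GA.nm_zero] at hnu
    have : r.natAbs ^ 2 * p ≠ 0 := mul_ne_zero (pow_ne_zero 2 hr') hp.ne_zero
    exact this hnu.symm
  · show Int.gcd (x - b * y) a = 1
    have e : x - b * y = x + (-(b * y1)) * (a : ℤ) := by
      rw [hy]; ring
    rw [e, Int.gcd_comm]
    rw [Int.gcd_comm] at hxa
    rw [← hxa]
    simp
  · rw [hnu, Pool.Agent.W78.GA.lam_sq_mul hr' hp.ne_zero, Pool.Agent.W78.GA.lam_prime hp]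

end Pool.Agent.H17.Q648
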